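import Mathlib

/-!
# Finite propagation for a self-similar action that is not finite state

The infinite dihedral group, written as the group of all maps `x ↦ e x + n` of the integers, acts on
the words over the alphabet `{0, 1, ∗}`: on words over `{0, 1}` as it acts on dyadic integers, and
`g (∗ w) = ∗ (τ⁻¹ g τ) (w)` where `τ` is the translation `x ↦ x + 1`.
-/

set_option autoImplicit false

namespace Pool.Agent.Results.MP_3790b3_al.DihedralExample

universe u v

/-- a self-similar action of the group `G` over the alphabet `X` -/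
structure SelfSimilarAction (G : Type u) [Group G] (X : Type v) where
  /-- the action on words -/
  act : G → List X → List X
  /-- the restriction maps -/
  res : G → List X → G
  one_act : ∀ w, act 1 w = w
  mul_act : ∀ g h w, act (g * h) w = act g (act h w)
  faithful : ∀ g h, (∀ w, act g w = act h w) → g = h
  act_nil : ∀ g, act g [] = []
  res_nil : ∀ g, res g [] = g
  act_append : ∀ g u v, act g (u ++ v) = act g u ++ act (res g u) v
  res_append : ∀ g u v, res g (u ++ v) = res (res g u) v
  res_mul : ∀ g h u, res (g * h) u = res g (act h u) * res h u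

/-- every element has finitely many restrictions -/
def SelfSimilarAction.FiniteState {G : Type u} [Group G] {X : Type v}
    (A : SelfSimilarAction G X) : Prop :=
  ∀ g : G, {k : G | ∃ w : List X, k = A.res g w}.Finite

/-- the Zappa-Szep product of the free monoid and `G` has finite propagation -/
def SelfSimilarAction.FinitePropagation {G : Type u} [Group G] {X : Type v}
    (A : SelfSimilarAction G X) : Prop :=
  ∀ g h : G, ∃ x : List X → G, x [] = 1 ∧
    {k : G | ∃ w : List X, k = (x (A.act g w))⁻¹ * A.res g w * x w}.Finite ∧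
    {k : G | ∃ w : List X, k = (x (A.act h w))⁻¹ * A.res h w * x w}.Finite

/-! ### Self-similar actions defined letter by letter -/

section letters

variable {G : Type u} [Group G] {X : Type v} (aL : G → X → X) (rL : G → X → G)

/-- the action on words defined by an action and restrictions on letters -/
def wact : G → List X → List X
  | _, [] => []
  | g, x :: w => aL g x :: wact (rL g x) w

/-- the restrictions to words -/
def wres : G → List X → G
  | g, [] => g
  | g, x :: w => wres (rL g x) w

theorem wact_one (h1 : ∀ x, aL 1 x = x) (h2 : ∀ x, rL 1 x = 1) (w : List X) :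
    wact aL rL 1 w = w := by
  induction w with
  | nil => rfl
  | cons x w ih => rw [wact, h1, h2, ih]

theorem wact_mul (h1 : ∀ g h x, aL (g * h) x = aL g (aL h x))
    (h2 : ∀ g h x, rL (g * h) x = rL g (aL h x) * rL h x) (w : List X) :
    ∀ g h : G, wact aL rL (g * h) w = wact aL rL g (wact aL rL h w) := by
  induction w with
  | nil => intro g h; rfl
  | cons x w ih => intro g h; simp only [wact]; rw [h1, h2, ih]

theorem wact_append (u v : List X) : ∀ g : G,
    wact aL rL g (u ++ v) = wact aL rL g u ++ wact aL rL (wres rL g u) v := by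
  induction u with
  | nil => intro g; rfl
  | cons x u ih => intro g; simp only [List.cons_append, wact, wres]; rw [ih]

theorem wres_append (u v : List X) : ∀ g : G,
    wres rL g (u ++ v) = wres rL (wres rL g u) v := by
  induction u with
  | nil => intro g; rfl
  | cons x u ih => intro g; simp only [List.cons_append, wres]; rw [ih]

theorem wres_mul (h2 : ∀ g h x, rL (g * h) x = rL g (aL h x) * rL h x) (w : List X) :
    ∀ g h : G, wres rL (g * h) w = wres rL g (wact aL rL h w) * wres rL h w := by
  induction w with
  | nil => intro g h; rfl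
  | cons x w ih => intro g h; simp only [wact, wres]; rw [h2, ih]

end letters

/-! ### The infinite dihedral group -/

/-- the maps `x ↦ e x + n` of the integers -/
@[ext] structure Dih where
  e : ℤˣ
  n : ℤ

instance : Mul Dih := ⟨fun g h => ⟨g.e * h.e, g.n + g.e * h.n⟩⟩
instance : One Dih := ⟨⟨1, 0⟩⟩
instance : Inv Dih := ⟨fun g => ⟨g.e⁻¹, -((g.e⁻¹ : ℤˣ) * g.n)⟩⟩

theorem mul_e (g h : Dih) : (g * h).e = g.e * h.e := rfl
theorem mul_n (g h : Dih) : (g * h).n = g.n + g.e * h.n := rfl
theorem one_e : (1 : Dih).e = 1 := rfl
theorem one_n : (1 : Dih).n = 0 := rfl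
theorem inv_e (g : Dih) : (g⁻¹).e = g.e⁻¹ := rfl
theorem inv_n (g : Dih) : (g⁻¹).n = -((g.e⁻¹ : ℤˣ) * g.n) := rfl

instance : Group Dih := Group.ofLeftAxioms
  (fun a b c => by
    ext
    · simp only [mul_e, mul_assoc]
    · simp only [mul_e, mul_n, Units.val_mul]; ring)
  (fun a => by
    ext
    · simp only [mul_e, one_e, one_mul]
    · simp only [mul_n, one_e, one_n, Units.val_one]; ring)
  (fun a => by
    ext
    · simp only [mul_e, inv_e, one_e, inv_mul_cancel]
    · simp only [mul_n, inv_e, inv_n, one_n]; ring)

theorem e_cases (g : Dih) : (g.e : ℤ) = 1 ∨ (g.e : ℤ) = -1 := by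
  rcases Int.units_eq_one_or g.e with h | h
  · left; rw [h]; rfl
  · right; rw [h]; rfl

/-- the value of a map at an integer -/
def ev (g : Dih) (x : ℤ) : ℤ := g.e * x + g.n

/-- the integer value of a bit -/
def val (b : Bool) : ℤ := if b then 1 else 0

/-- the parity of an integer -/
def bit (m : ℤ) : Bool := decide (m % 2 = 1)

theorem val_bit (m : ℤ) : val (bit m) = m % 2 := by
  rcases Int.emod_two_eq_zero_or_one m with h | h <;> simp [val, bit, h]

theorem bit_eq_iff (m n : ℤ) : bit m = bit n ↔ m % 2 = n % 2 := by
  constructor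
  · intro h
    rw [← val_bit, ← val_bit, h]
  · intro h
    unfold bit
    rw [h]

theorem bit_val (b : Bool) : bit (val b) = b := by cases b <;> rfl

theorem ev_mul (g h : Dih) (x : ℤ) : ev (g * h) x = ev g (ev h x) := by
  simp only [ev, mul_e, mul_n, Units.val_mul]; ring

/-- the action on letters; the third letter is `none` -/
def aL (g : Dih) : Option Bool → Option Bool
  | none => none
  | some b => some (bit (ev g (val b)))

/-- the standard restrictions to letters -/
def oL (g : Dih) : Option Bool → Dih
  | none => g
  | some b => ⟨g.e, ev g (val b) / 2⟩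

/-- the change of basis -/
def yy : Option Bool → Dih
  | none => ⟨1, 1⟩
  | some _ => 1

/-- the modified restrictions to letters -/
def rL (g : Dih) (x : Option Bool) : Dih := (yy (aL g x))⁻¹ * oL g x * yy x

theorem ev_split (g : Dih) (x : ℤ) : ev g x = ev g (x % 2) + 2 * (g.e * (x / 2)) := by
  have := Int.emod_add_mul_ediv x 2
  conv_lhs => rw [← this]
  simp only [ev]; ring

theorem aL_mul (g h : Dih) (x : Option Bool) : aL (g * h) x = aL g (aL h x) := by
  cases x with
  | none => rfl
  | some b =>
    simp only [aL]
    rw [val_bit, ev_mul, Option.some_inj, bit_eq_iff, ev_split g (ev h (val b))]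
    omega

theorem oL_mul (g h : Dih) (x : Option Bool) : oL (g * h) x = oL g (aL h x) * oL h x := by
  cases x with
  | none => rfl
  | some b =>
    simp only [aL, oL]
    ext
    · rfl
    · simp only [mul_n]
      rw [val_bit, ev_mul, ev_split g (ev h (val b))]
      omega

theorem aL_one (x : Option Bool) : aL 1 x = x := by
  cases x with
  | none => rfl
  | some b =>
    simp only [aL]
    rw [show ev 1 (val b) = val b by simp [ev, one_e, one_n], bit_val]

theorem oL_one (x : Option Bool) : oL 1 x = 1 := by
  cases x with
  | none => rfl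
  | some b =>
    simp only [oL]
    ext
    · rfl
    · rw [one_n, show ev 1 (val b) = val b by simp [ev, one_e, one_n]]
      cases b <;> rfl

theorem rL_mul (g h : Dih) (x : Option Bool) : rL (g * h) x = rL g (aL h x) * rL h x := by
  simp only [rL]
  rw [oL_mul, aL_mul]
  group

theorem rL_one (x : Option Bool) : rL 1 x = 1 := by
  simp only [rL]
  rw [oL_one, aL_one]
  group

theorem rL_some (g : Dih) (b : Bool) : rL g (some b) = ⟨g.e, ev g (val b) / 2⟩ := by
  simp only [rL, aL, oL, yy]
  simp

theorem rL_none (g : Dih) : rL g none = (⟨1, 1⟩ : Dih)⁻¹ * g * ⟨1, 1⟩ := rfl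

/-- the word of the first `k` dyadic digits -/
def W : ℕ → ℤ → List (Option Bool)
  | 0, _ => []
  | k + 1, x => some (bit x) :: W k (x / 2)

theorem wact_W (k : ℕ) : ∀ (g : Dih) (x : ℤ), wact aL rL g (W k x) = W k (ev g x) := by
  induction k with
  | zero => intro g x; rfl
  | succ k ih =>
    intro g x
    simp only [W, wact]
    rw [rL_some, ih, aL, val_bit]
    have h1 := ev_split g x
    have h2 : bit (ev g (x % 2)) = bit (ev g x) := by
      rw [bit_eq_iff, h1]; omega
    have h3 : ev ⟨g.e, ev g (x % 2) / 2⟩ (x / 2) = ev g x / 2 := by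
      rw [h1]
      simp only [ev]
      omega
    rw [h2, h3]

theorem dvd_of_W (k : ℕ) : ∀ x y : ℤ, W k x = W k y → (2 ^ k : ℤ) ∣ x - y := by
  induction k with
  | zero => intro x y _; simp
  | succ k ih =>
    intro x y h
    simp only [W, List.cons.injEq, Option.some_inj] at h
    obtain ⟨t, ht⟩ := ih _ _ h.2
    have h1 := (bit_eq_iff _ _).1 h.1
    refine ⟨t, ?_⟩
    rw [pow_succ, mul_right_comm, ← ht]
    omega

theorem ev_inj (g h : Dih) (H : ∀ w, wact aL rL g w = wact aL rL h w) (x : ℤ) :
    ev g x = ev h x := by
  have h1 : ∀ k : ℕ, (2 ^ k : ℤ) ∣ ev g x - ev h x := by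
    intro k
    apply dvd_of_W
    rw [← wact_W, ← wact_W]
    exact H _
  by_contra hne
  have h2 : ev g x - ev h x ≠ 0 := sub_ne_zero.2 hne
  have h3 := Int.le_of_dvd (abs_pos.2 h2) ((dvd_abs _ _).2 (h1 (ev g x - ev h x).natAbs))
  have h4 : (ev g x - ev h x).natAbs < 2 ^ (ev g x - ev h x).natAbs := Nat.lt_two_pow_self
  have h5 : ((ev g x - ev h x).natAbs : ℤ) < 2 ^ (ev g x - ev h x).natAbs := by exact_mod_cast h4
  rw [Int.natCast_natAbs] at h5
  omega

/-- the modified self-similar action of the infinite dihedral group -/
def A : SelfSimilarAction Dih (Option Bool) where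
  act := wact aL rL
  res := wres rL
  one_act := wact_one _ _ aL_one rL_one
  mul_act g h w := wact_mul _ _ aL_mul rL_mul w g h
  faithful g h H := by
    have h0 := ev_inj g h H 0
    have h1 := ev_inj g h H 1
    simp only [ev, mul_zero, zero_add, mul_one] at h0 h1
    ext
    · have : (g.e : ℤ) = h.e := by omega
      exact this
    · exact h0
  act_nil _ := rfl
  res_nil _ := rfl
  act_append g u v := wact_append _ _ u v g
  res_append g u v := wres_append _ u v g
  res_mul g h u := wres_mul _ _ rL_mul u g h

/-- the correcting family -/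
def xx : Dih → List (Option Bool) → Dih
  | s, [] => s
  | s, x :: w => xx (oL s x * yy x) w

theorem key {B : ℤ} (hB : 2 ≤ B) (w : List (Option Bool)) : ∀ (g s t h : Dih),
    |h.n| ≤ B → t * g = h * s → ∃ h' : Dih, |h'.n| ≤ B ∧
      xx t (wact aL rL g w) * wres rL g w = h' * xx s w := by
  induction w with
  | nil => intro g s t h hh hg; exact ⟨h, hh, hg⟩
  | cons x w ih =>
    intro g s t h hh hg
    simp only [wact, wres, xx]
    refine ih (rL g x) (oL s x * yy x) (oL t (aL g x) * yy (aL g x)) (oL h (aL s x)) ?_ ?_
    · cases hx : aL s x with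
      | none => exact hh
      | some b =>
        simp only [oL, ev]
        rw [abs_le] at hh ⊢
        rcases e_cases h with he | he <;> rw [he] <;> cases b <;>
          simp only [val, if_true, if_false, Bool.false_eq_true] <;> constructor <;> omega
    · have h1 := oL_mul t g x
      have h2 := oL_mul h s x
      rw [hg, h2] at h1
      simp only [rL]
      calc oL t (aL g x) * yy (aL g x) * ((yy (aL g x))⁻¹ * oL g x * yy x)
          = (oL t (aL g x) * oL g x) * yy x := by group
        _ = oL h (aL s x) * (oL s x * yy x) := by rw [← h1]; group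

theorem finite_bounded (B : ℤ) : {h : Dih | |h.n| ≤ B}.Finite := by
  have h1 : (((Finset.univ : Finset ℤˣ) : Set ℤˣ) ×ˢ (Set.Icc (-B) B)).Finite :=
    (Finset.finite_toSet _).prod (Set.finite_Icc _ _)
  apply Set.Finite.of_finite_image (f := fun h : Dih => (h.e, h.n))
  · refine h1.subset ?_
    rintro _ ⟨h, hh, rfl⟩
    exact ⟨Finset.mem_coe.2 (Finset.mem_univ _), abs_le.1 hh⟩
  · intro g _ h _ hgh
    rw [Prod.mk.injEq] at hgh
    exact Dih.ext hgh.1 hgh.2

theorem finitePropagation : A.FinitePropagation := by
  have h0 : ∀ g : Dih, {k : Dih | ∃ w : List (Option Bool),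
      k = ((xx 1 (A.act g w))⁻¹)⁻¹ * A.res g w * (xx 1 w)⁻¹}.Finite := by
    intro g
    refine (finite_bounded (|g.n| + 2)).subset ?_
    rintro k ⟨w, rfl⟩
    obtain ⟨h', h1, h2⟩ := key (B := |g.n| + 2) (by have := abs_nonneg g.n; omega) w g 1 1 g
      (by omega) (by rw [one_mul, mul_one])
    have h3 : ((xx 1 (A.act g w))⁻¹)⁻¹ * A.res g w * (xx 1 w)⁻¹ = h' := by
      rw [inv_inv]
      change xx 1 (wact aL rL g w) * wres rL g w * (xx 1 w)⁻¹ = h'
      rw [h2, mul_inv_cancel_right]
    rw [h3]
    exact h1
  intro g h
  exact ⟨fun w => (xx 1 w)⁻¹, inv_one, h0 g, h0 h⟩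

theorem not_finiteState : ¬ A.FiniteState := by
  intro h
  have h1 := h ⟨-1, 0⟩
  have h2 : ∀ (n : ℕ) (m : ℤ), A.res ⟨-1, m⟩ (List.replicate n none) = ⟨-1, m - 2 * n⟩ := by
    intro n
    induction n with
    | zero => intro m; simp [A, wres]
    | succ n ih =>
      intro m
      change wres rL (rL ⟨-1, m⟩ none) (List.replicate n none) = _
      have h3 : rL ⟨-1, m⟩ none = ⟨-1, m - 2⟩ := by
        rw [rL_none]
        ext
        · simp [mul_e, inv_e]
        · simp only [mul_n, mul_e, inv_e, inv_n, inv_one, Units.val_one, Units.val_neg, mul_one,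
            one_mul]
          ring
      rw [h3]
      have h4 := ih (m - 2)
      change wres rL ⟨-1, m - 2⟩ (List.replicate n none) = _ at h4
      rw [h4]
      ext
      · rfl
      · push_cast; ring
  have h5 : {k : Dih | ∃ w : List (Option Bool), k = A.res ⟨-1, 0⟩ w}.Infinite := by
    apply Set.infinite_of_injective_forall_mem
      (f := fun n : ℕ => A.res ⟨-1, 0⟩ (List.replicate n none))
    · intro a b hab
      simp only [h2, Dih.mk.injEq] at hab
      omega
    · intro n
      exact ⟨_, rfl⟩
  exact h5 h1

/-- **There is a self-similar action that is not finite state but has finite propagation.** -/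
theorem result : ∃ (G : Type) (_ : Group G) (X : Type) (_ : Finite X)
    (A : SelfSimilarAction G X), ¬ A.FiniteState ∧ A.FinitePropagation :=
  ⟨Dih, inferInstance, Option Bool, inferInstance, A, not_finiteState, finitePropagation⟩

end Pool.Agent.Results.MP_3790b3_al.DihedralExample
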